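import Pool.Agent.Helper39.ANG.Defs2
import Pool.Agent.Helper39.ANG.Defs3

/-! # The far bound for all words: definitions (project FB)

The site kernels `KJ n j e` of typical modules (`e`: potentials of the regions left, right, above,
below), the polynomial `TV` of a vertex, and the matrix of a kernel. -/

set_option autoImplicit false

namespace ANG.FB
open Finset Pool.Agent.Helper39.VC Pool.Agent.Helper39.DT
open Pool.Agent.Helper5.TV (lob)
open scoped Classical

/-- `2 sin (π x / n)` -/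
noncomputable def sc (n : ℕ) (x : ℂ) : ℂ := 2 * Complex.sin (Real.pi * x / n)

/-- `exp (π i x / n)` -/
noncomputable def pc (n : ℕ) (x : ℂ) : ℂ := Complex.exp (Real.pi * Complex.I * x / n)

/-- the quantum binomial `[x; p]` -/
noncomputable def bn (n : ℕ) (x : ℂ) (p : ℕ) : ℂ := ∏ u ∈ range p, (sc n (x - u) / sc n (u + 1))

/-- `∏_{u=1}^r 2 sin (π (u - a) / n)` -/
noncomputable def nb (n r : ℕ) (a : ℂ) : ℂ := ∏ u ∈ range r, sc n (u + 1 - a)

/-- the polynomial of a vertex of level `m` at the heights `h` -/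
noncomputable def TV (n m : ℕ) (x h : Fin 3 → ℂ) : ℂ :=
  ∑ p ∈ Finset.Nat.antidiagonalTuple 3 m, ∏ i, (bn n (x i) (p i) * pc n (2 * (p i) * h i))

/-- the kernel of a site with the label `j` and the potentials `e` of the regions left (`0`), right
(`1`), above (`2`), below (`3`) -/
noncomputable def KJ (n j : ℕ) (e : Fin 4 → ℂ) (A : Fin 4 → ℕ) : ℂ :=
  ∑ p ∈ range (A 0 + 1), ∑ r ∈ range (A 1 + 1), if p + r + A 3 = j then
    (bn n (j - (e 1 - e 3)) p * bn n (j - (e 3 - e 0)) r * bn n (n - 1 - j - (e 0 - e 1)) (A 3)) *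
    (bn n (n - 1 - j - (e 2 - e 1)) (A 0 - p) * bn n (n - 1 - j - (e 0 - e 2)) (A 1 - r) *
      bn n (j + (e 0 - e 1)) (A 2))
  else 0

/-- the phase of the potentials -/
noncomputable def pe (n : ℕ) (e : Fin 4 → ℂ) (A : Fin 4 → ℕ) : ℂ := pc n (∑ c, (A c) * e c)

/-- the matrix of the kernel `ρ` -/
noncomputable def matOf (n : ℕ) (ρ : (Fin 4 → ℕ) → ℂ) : Matrix (Fin n × Fin n) (Fin n × Fin n) ℂ :=
  fun y x => if (y.1:ℕ) + y.2 ≡ x.1 + x.2 [MOD n] then
    ((sf n x.1 * sf n x.2 : ℝ) : ℂ) *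
      ph n (((n:ℝ)-1) * (cx n x.1 + cx n y.1)
        + ((cx n x.1)^2 + (cx n x.2)^2 - (cx n y.1)^2 - (cx n y.2)^2)/2) *
      (∑ A ∈ Finset.Nat.antidiagonalTuple 4 (n-1),
        ρ A * ph n (-2 * (A 2 * cx n y.1 + A 3 * cx n x.1 + A 1 * (cx n x.1 + cx n x.2)))) /
      (n * ((sf n y.1 * sf n y.2 : ℝ) : ℂ))
  else 0

/-- the matrix of a site -/
noncomputable def MJ (n j : ℕ) (e : Fin 4 → ℂ) : Matrix (Fin n × Fin n) (Fin n × Fin n) ℂ :=
  matOf n fun A => KJ n j e A * pe n e A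

/-- the matrix of the partner: label `n - 1 - j`, potentials `-e`, the same phase -/
noncomputable def MJ' (n j : ℕ) (e : Fin 4 → ℂ) : Matrix (Fin n × Fin n) (Fin n × Fin n) ℂ :=
  matOf n fun A => KJ n (n - 1 - j) (fun c => - e c) A * pe n e A

/-- the gauge factor of a strand with the state `i`, the charge `a = e_l - e_r` and the heights
`hl`, `hr` of the regions on its two sides -/
noncomputable def gs (n : ℕ) (a : ℂ) (i : ℕ) (hl hr : ℂ) : ℂ :=
  pc n (a * (hl + hr)) * (sf n (n - 1 - i) : ℝ) / nb n (n - 1 - i) a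

/-- `∏_{u=1}^{n-1} 2 sin (π (u - a) / n)` -/
noncomputable def Dn (n : ℕ) (a : ℂ) : ℂ := nb n (n - 1) a

/-- the constant of a site -/
noncomputable def cJ (n j : ℕ) (e : Fin 4 → ℂ) : ℂ :=
  nb n j (e 1 - e 3) * nb n j (e 3 - e 0) * nb n (n - 1 - j) (e 2 - e 1) * nb n (n - 1 - j) (e 0 - e 2) /
    (Dn n (e 0 - e 3) * Dn n (e 3 - e 1))

/-- heights of the four regions of a site with the states `x` (below), `y` (above), shifted by the
potentials -/
noncomputable def hs (n : ℕ) (e : Fin 4 → ℂ) (y x : Fin n × Fin n) : Fin 4 → ℂ :=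
  ![e 0 / 2, - ((cx n x.1 + cx n x.2 : ℝ) : ℂ) + e 1 / 2, - ((cx n y.1 : ℝ) : ℂ) + e 2 / 2,
    - ((cx n x.1 : ℝ) : ℂ) + e 3 / 2]

/-- the gauge relation of two matrices at a site with the constant `c` -/
def GRel (n : ℕ) (M M' : Matrix (Fin n × Fin n) (Fin n × Fin n) ℂ) (c : ℂ) (e : Fin 4 → ℂ) : Prop :=
  ∀ y x : Fin n × Fin n, (y.1:ℕ) + y.2 = x.1 + x.2 →
    M y x * (gs n (e 0 - e 3) x.1 (hs n e y x 0) (hs n e y x 3) *
      gs n (e 3 - e 1) x.2 (hs n e y x 3) (hs n e y x 1)) =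
    c * (gs n (e 0 - e 2) y.1 (hs n e y x 0) (hs n e y x 2) *
      gs n (e 2 - e 1) y.2 (hs n e y x 2) (hs n e y x 1)) * M' y x

/-- potentials which are small and such that all denominators are nonzero -/
structure Small (e : Fin 4 → ℂ) : Prop where
  le : ∀ c d, ‖e c - e d‖ ≤ 1 / 4
  ne : e 0 ≠ e 1

/-- a potential on the labels of the regions of a word -/
structure Pot {β : Type} (w : List (Lt β)) (e : ℕ → ℂ) : Prop where
  same : ∀ p ∈ idents w [0,1] 2, e p.1 = e p.2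
  le : ∀ a b, ‖e a - e b‖ ≤ 1 / 4
  ne : ∀ x : Bl w, e (crn w x 0) ≠ e (crn w x 1)

end ANG.FB
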