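import Pool.Agent.FB.Defs
import Pool.Agent.Helper56.ANG.Gw11

/-! # The far bound for all words: weak angle structures -/

set_option autoImplicit false

namespace ANG.FB
open Finset Filter Topology Pool.Agent.Helper39.VC Pool.Agent.Helper39.DT
open Pool.Agent.Helper5.TV (lob)
open Pool.Agent.ANG Pool.Agent.W2L ANG.Gw
open Pool.Agent.Helper78.ANG (vol3)
open scoped Classical

/-- weak angle structures: the angles may be zero -/
structure AngW (w : ℕ → Mv) (N : ℕ) (α : ℕ → Fin 3 → ℝ) : Prop where
  zero : ∀ t < N, ∀ c, reg w t c < 2 → α t c = 0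
  nn : ∀ t < N, ∀ c, 0 ≤ α t c
  vert : ∀ t < N, α t 0 + α t 1 + α t 2 = Real.pi / 2
  regn : ∀ g, 2 ≤ g → (∃ t < N, ∃ c, reg w t c = g) →
    ∑ t ∈ Finset.range N, ∑ c, (if reg w t c = g then α t c else 0) = Real.pi

/-- integral data of a term of the product of the site kernels with the labels `j`: the numbers at
the corners of the two ends -/
structure Fl {w : ℕ → Mv} {N : ℕ} (n : ℕ) (j : Bl (toLt id w N) → ℕ) (A : Bl (toLt id w N) → Fin 4 → ℕ)
    (P : Bl (toLt id w N) → Bool → Fin 4 → ℕ) : Prop where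
  sum : ∀ x s, ∑ c ∈ cor s, P x s c = if s then n - 1 - j x else j x
  tot : ∀ x c, A x c = (if c ∈ cor true then P x true c else 0) + (if c ∈ cor false then P x false c else 0)

end ANG.FB
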