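import Pool.Agent.FB.Defs
import Pool.Agent.Helper4.EM.Der
import Pool.Agent.Helper79.ANG.Adj
import Pool.Agent.Helper82.ANG.Node1

/-! # The kernel of a site at zero potentials (rows R1a, R1b) -/

set_option autoImplicit false

namespace ANG.FB

open Finset Pool.Agent.Helper4.EM

theorem KJ_KA {n j : ℕ} (hj : j < n) (A : Fin 4 → ℕ) (hA : ∑ c, A c + 1 = n) (e : Fin 4 → ℂ) :
    KJ n j e A = KA n j (e 3 - e 1) (e 0 - e 3) (e 1 - e 2) (e 2 - e 0) (A 0) (A 1) (A 2) (A 3) := by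
  have hA' : A 0 + A 1 + A 2 + A 3 + 1 = n := by
    rw [← hA, Fin.sum_univ_four]
  have hb : ∀ (x : ℂ) (p : ℕ), ANG.FB.bn n x p = gb (sq n) x p := by
    intro x p
    rw [← bn_eq]
    rfl
  have ec : ((n - 1 - j : ℕ) : ℂ) = (n : ℂ) - 1 - j := by
    rw [Nat.cast_sub (by omega), Nat.cast_sub (by omega)]
    simp
  rw [KJ, KA]
  refine sum_congr rfl fun p hp => sum_congr rfl fun r hr => ?_
  have h1 := mem_range.1 hp
  have h2 := mem_range.1 hr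
  by_cases c : p + r + A 3 = j
  · rw [if_pos c, if_pos ⟨c, by omega⟩]
    simp only [hb, ec]
    have e1 : (j : ℂ) - (e 1 - e 3) = j + (e 3 - e 1) := by ring
    have e2 : (j : ℂ) - (e 3 - e 0) = j + (e 0 - e 3) := by ring
    have e3 : e 0 - e 1 = e 3 - e 1 + (e 0 - e 3) := by ring
    have e4 : (n : ℂ) - 1 - j - (e 2 - e 1) = n - 1 - j + (e 1 - e 2) := by ring
    have e5 : (n : ℂ) - 1 - j - (e 0 - e 2) = n - 1 - j + (e 2 - e 0) := by ring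
    rw [e1, e2, e3, e4, e5]
  · rw [if_neg c, if_neg fun h => c h.1]

theorem Xk_Xu (n j : ℕ) : ANG.h79.Xk n (2 * j + 1) = Nd.Xu n j := by
  rw [ANG.h79.Xk, Nd.Xu]
  push_cast
  rfl

theorem R1a {n j : ℕ} (hj : j < n) (A : Fin 4 → ℕ) (hA : ∑ c, A c + 1 = n) :
    KJ n j 0 A = (((HH n A (Nd.Xu n j) : ℝ) : ℂ)) / (n:ℂ)^2 := by
  have hA' : A 0 + A 1 + A 2 + A 3 + 1 = n := by
    rw [← hA, Fin.sum_univ_four]
  have hn : (n : ℂ) ≠ 0 := by
    have : 0 < n := by omega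
    exact_mod_cast this.ne'
  rw [ANG.h79.HH_eq A hA', KJ_KA hj A hA]
  have := KK_zero hA' hj
  rw [KK_eq_KA hj, Xk_Xu] at this
  rw [mul_div_assoc, mul_comm, div_mul_cancel₀ _ (pow_ne_zero 2 hn), ← this]
  congr 1

theorem R1b {n j : ℕ} (hj : j < n) (A : Fin 4 → ℕ) (hA : ∑ c, A c + 1 = n) (e : Fin 4 → ℂ) :
    HasDerivAt (fun s : ℂ => KJ n j (fun c => s * e c) A - KJ n (n - 1 - j) (fun c => s * e c) A)
      ((-(4 * Real.pi * (e 0 - e 1) / n) * Real.sin (Real.pi * (2 * j + 1) / n)) *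
        (((deriv (HH n A) (Nd.Xu n j) : ℝ) : ℂ)) / (n:ℂ)^2) 0 := by
  have hA' : A 0 + A 1 + A 2 + A 3 + 1 = n := by
    rw [← hA, Fin.sum_univ_four]
  have hn0 : 0 < n := by omega
  have hn : (n : ℂ) ≠ 0 := by exact_mod_cast hn0.ne'
  have K := KA_deriv hA' hj (e 3 - e 1) (e 0 - e 3) (e 1 - e 2) (e 2 - e 0) (by ring)
  have ef : (fun s : ℂ => KJ n j (fun c => s * e c) A - KJ n (n - 1 - j) (fun c => s * e c) A) =
      fun s : ℂ =>
      KA n j (s * (e 3 - e 1)) (s * (e 0 - e 3)) (s * (e 1 - e 2)) (s * (e 2 - e 0))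
        (A 0) (A 1) (A 2) (A 3) -
      KA n (n - 1 - j) (s * (e 3 - e 1)) (s * (e 0 - e 3)) (s * (e 1 - e 2)) (s * (e 2 - e 0))
        (A 0) (A 1) (A 2) (A 3) := by
    funext s
    rw [KJ_KA hj A hA, KJ_KA (by omega) A hA]
    simp only [mul_sub]
  rw [ef]
  have eX : xc n (2 * j + 1) = (Nd.Xu n j : ℂ) := by
    rw [← Xk_Xu, ← xc_Xk]
    push_cast
    rfl
  have eD : e 3 - e 1 + (e 0 - e 3) = e 0 - e 1 := by ring
  have eS : Complex.sin (Real.pi * (2 * j + 1) / n) =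
      ((Real.sin (Real.pi * (2 * j + 1) / n) : ℝ) : ℂ) := by
    push_cast
    rfl
  rw [eX, eD, eS] at K
  -- the two derivatives
  have dS : Differentiable ℂ fun X : ℂ => ANG.h79.SS n (A 0) (A 1) (A 2) (A 3) X := by
    simp only [ANG.h79.SS, ANG.h79.PP]
    fun_prop
  have h1 : HasDerivAt (fun x : ℝ => ANG.h79.SS n (A 0) (A 1) (A 2) (A 3) (x : ℂ))
      (deriv (fun X : ℂ => ANG.h79.SS n (A 0) (A 1) (A 2) (A 3) X) (Nd.Xu n j : ℂ)) (Nd.Xu n j) :=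
    (dS (Nd.Xu n j : ℂ)).hasDerivAt.comp_ofReal
  have dH : Differentiable ℝ (HH n A) := by
    unfold HH phX
    fun_prop
  have h2 : HasDerivAt (fun x : ℝ => ((HH n A x : ℝ) : ℂ))
      ((deriv (HH n A) (Nd.Xu n j) : ℝ) : ℂ) (Nd.Xu n j) :=
    ((dH (Nd.Xu n j)).hasDerivAt).ofReal_comp
  have h3 : (fun x : ℝ => ((HH n A x : ℝ) : ℂ)) =
      fun x : ℝ => (n:ℂ)^2 * ANG.h79.SS n (A 0) (A 1) (A 2) (A 3) (x : ℂ) := by
    funext x
    exact ANG.h79.HH_eq A hA' x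
  rw [h3] at h2
  have h4 := (h1.const_mul ((n:ℂ)^2)).unique h2
  refine K.congr_deriv ?_
  rw [← h4]
  field_simp

end ANG.FB
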