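import Pool.Agent.FB.R1a

/-! # Row R1b: see `R1a.lean` -/
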