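import Pool.Agent.FB.Defs2
import Pool.Agent.Helper39.ANG.Fin4
import Pool.Agent.Helper82.ANG.Node2
import Pool.Agent.Helper60.ANG.Face

/-! # The far bound for all words: skeleton of the rows (NOT to be imported by results) -/

set_option autoImplicit false

namespace ANG.FB
open Finset Filter Topology Pool.Agent.Helper39.VC Pool.Agent.Helper39.DT
open Pool.Agent.Helper5.TV (lob)
open Pool.Agent.ANG Pool.Agent.W2L ANG.Gw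
open Pool.Agent.Helper78.ANG (vol3)
open scoped Classical

/-! ## EVC: the vertex -/

theorem V0 {n m : ℕ} (hm : m < n) (x h : Fin 3 → ℂ) (hx : x 0 + x 1 + x 2 = m + n - 1) (r : Fin 3 → ℕ)
    (hr : ∀ i, r i < n) (z z' : ℤ) (h01 : h 0 - h 1 = (x 0 + x 1) / 2 - r 2 + n * z)
    (h12 : h 1 - h 2 = (x 1 + x 2) / 2 - r 0 + n * z') (hs : r 0 + r 1 + r 2 + 1 = m) : TV n m x h = 0 := sorry

theorem V0' {n m : ℕ} (hm : m < n) (x h : Fin 3 → ℂ) (hx : x 0 + x 1 + x 2 = m + n - 1) (r : Fin 3 → ℕ)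
    (hr : ∀ i, r i < n) (z z' : ℤ) (h01 : h 0 - h 1 = (x 0 + x 1) / 2 - r 2 + n * z)
    (h12 : h 1 - h 2 = (x 1 + x 2) / 2 - r 0 + n * z') (hs : r 0 + r 1 + r 2 + 1 = m + 2 * n) :
    TV n (n - 1 - m) (fun i => n - 1 - x i) h = 0 := sorry

theorem V1 {n m : ℕ} (hm : m < n) (x h : Fin 3 → ℂ) (hx : x 0 + x 1 + x 2 = m + n - 1) (r : Fin 3 → ℕ)
    (hr : ∀ i, r i < n) (h01 : h 0 - h 1 = (x 0 + x 1) / 2 - r 2)
    (h12 : h 1 - h 2 = (x 1 + x 2) / 2 - r 0) (hs : r 0 + r 1 + r 2 + 1 = m + n) :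
    (n * (sf n m : ℝ) * ∏ i, nb n (r i) (m - x i)) * TV n m x h =
      (∏ i, nb n m (m - x i)) * (∏ i, ((sf n (r i) : ℝ) : ℂ)) *
      pc n ((m - x 0) * (h 1 + h 2) + (m - x 1) * (h 2 + h 0) + (m - x 2) * (h 0 + h 1)) *
      TV n (n - 1 - m) (fun i => n - 1 - x i) h := sorry

/-! ## EVD: the sites -/

theorem matOf_hasAng {n : ℕ} (hn : 0 < n) (ρ : (Fin 4 → ℕ) → ℂ) : HasAng n (matOf n ρ) ρ := sorry

theorem MJ_le {n j : ℕ} (hj : j < n) (e : Fin 4 → ℂ) (y x : Fin n × Fin n)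
    (h : (x.1:ℕ) + x.2 < y.1 + y.2) : MJ n j e y x = 0 := sorry

theorem MJ'_ge {n j : ℕ} (hj : j < n) (e : Fin 4 → ℂ) (y x : Fin n × Fin n)
    (h : (y.1:ℕ) + y.2 < x.1 + x.2) : MJ' n j e y x = 0 := sorry

theorem MJ_rel {n j : ℕ} (hj : j < n) {e : Fin 4 → ℂ} (he : Small e) :
    GRel n (MJ n j e) (MJ' n j e) (cJ n j e) e := sorry

/-! ## EVA: the sum over the integral angle structures -/

theorem jones_angles_le {β : Type} {n : ℕ} (hn : 0 < n) (w : List (Lt β)) (hw : Good w)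
    (M : β → Matrix (Fin n × Fin n) (Fin n × Fin n) ℂ)
    (ρ : β → (Fin 4 → ℕ) → ℂ) (h : ∀ b, HasAng n (M b) (ρ b))
    (hz : ∀ b (y x : Fin n × Fin n), (x.1:ℕ) + x.2 < y.1 + y.2 → M b y x = 0) :
    jones n (qr n) M w = ∑ A ∈ AngSet n w, ∏ e, ρ (kd w e) (A e) := sorry

theorem jones_angles_ge {β : Type} {n : ℕ} (hn : 0 < n) (w : List (Lt β)) (hw : Good w)
    (M : β → Matrix (Fin n × Fin n) (Fin n × Fin n) ℂ)
    (ρ : β → (Fin 4 → ℕ) → ℂ) (h : ∀ b, HasAng n (M b) (ρ b))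
    (hz : ∀ b (y x : Fin n × Fin n), (y.1:ℕ) + y.2 < x.1 + x.2 → M b y x = 0) :
    jones n (qr n) M w = ∑ A ∈ AngSet n w, ∏ e, ρ (kd w e) (A e) := sorry

/-! ## EVB: gauge invariance -/

/-- the constants of the cups and caps -/
noncomputable def Cc {β : Type} (n : ℕ) (e : ℕ → ℂ) : List (Lt β) → List ℕ → ℕ → ℂ
  | [], _, _ => 1
  | .cup i :: w, l, k => (Dn n (e (l.getD i 0) - e k) / n) * Cc n e w (gCup i k l) (k+1)
  | .cap i :: w, l, k => (n / Dn n (e (l.getD i 0) - e (l.getD (i+1) 0))) * Cc n e w (gCap i l) k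
  | .blk i _ :: w, l, k => Cc n e w (gBlk i k l) (k+1)

theorem jones_rel {β : Type} {n : ℕ} (hn : 0 < n) (w : List (Lt β)) (hw : Ok w 1) (e : ℕ → ℂ)
    (he : ∀ p ∈ idents w [0,1] 2, e p.1 = e p.2) (hle : ∀ a b, ‖e a - e b‖ ≤ 1 / 4)
    (M M' : β → Matrix (Fin n × Fin n) (Fin n × Fin n) ℂ) (c : β → ℂ)
    (hM : ∀ b (y x : Fin n × Fin n), (x.1:ℕ) + x.2 < y.1 + y.2 → M b y x = 0)
    (hM' : ∀ b (y x : Fin n × Fin n), (y.1:ℕ) + y.2 < x.1 + x.2 → M' b y x = 0)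
    (h : ∀ p ∈ corn w [0,1] 2, GRel n (M p.1) (M' p.1) (c p.1) (fun i => e (p.2 i))) :
    jones n (qr n) M w = (∏ x : Bl w, c (kd w x)) * Cc n e w [0,1] 2 * jones n (qr n) M' w := sorry

/-! ## EV: evenness -/

theorem even_word {β : Type} (w : List (Lt β)) (hw : Good w)
    (hE : ∀ x y : Bl w, kd w x = kd w y → x = y) :
    ∃ C : ℝ, 0 < C ∧ ∀ n : ℕ, 0 < n → ∀ e : ℕ → ℂ, Pot w e → ∀ j : Bl w → ℕ, (∀ x, j x < n) →
      ‖∑ A ∈ AngSet n w, ∏ x, KJ n (j x) (fun c => e (crn w x c)) (A x)‖ ≤ C * (n:ℝ) ^ C *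
      ‖∑ A ∈ AngSet n w, ∏ x, KJ n (n - 1 - j x) (fun c => - e (crn w x c)) (A x)‖ := sorry

/-! ## R1: the kernels at the nodes -/

theorem R1a {n j : ℕ} (hj : j < n) (A : Fin 4 → ℕ) (hA : ∑ c, A c + 1 = n) :
    KJ n j 0 A = (((HH n A (Nd.Xu n j) : ℝ) : ℂ)) / (n:ℂ)^2 := sorry

theorem R1b {n j : ℕ} (hj : j < n) (A : Fin 4 → ℕ) (hA : ∑ c, A c + 1 = n) (e : Fin 4 → ℂ) :
    HasDerivAt (fun s : ℂ => KJ n j (fun c => s * e c) A - KJ n (n - 1 - j) (fun c => s * e c) A)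
      ((-(4 * Real.pi * (e 0 - e 1) / n) * Real.sin (Real.pi * (2 * j + 1) / n)) *
        (((deriv (HH n A) (Nd.Xu n j) : ℝ) : ℂ)) / (n:ℂ)^2) 0 := sorry

/-! ## R2: bounds of the binomials -/

theorem R2 : ∃ C : ℝ, 0 < C ∧ ∀ n : ℕ, 0 < n → ∀ k p : ℕ, k < n → p < n → ∀ z : ℂ, ‖z‖ ≤ 1 / 4 →
    ‖bn n (k - z) p‖ ≤ C * (n:ℝ) ^ C * Real.exp ((n:ℝ) / Real.pi * (lob (Real.pi * p / n) +
      lob (Real.pi * ((k:ℝ) - p) / n) - lob (Real.pi * k / n))) := sorry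

/-! ## MID -/

theorem pair_lemma {m : ℝ} (h0 : 0 ≤ m) (h1 : m ≤ Real.pi / 2) (d : ℝ) :
    1 / 2 * Real.sin (2 * m) * Real.sin d ^ 2 ≤ 2 * lob m - lob (m + d) - lob (m - d) := sorry

/-- the two opposite windows at one vertex: `a`, `a'` angles, `ξ c + ξ' c = π` -/
theorem mid {a a' ξ ξ' : Fin 3 → ℝ} (h : ∀ c, 0 ≤ a c + a' c) (hs : ∑ c, (a c + a' c) = Real.pi)
    (hξ : ∀ c, ξ c + ξ' c = Real.pi) {δ : ℝ} (hδ : ∀ c, |Real.cos ((ξ c - ξ' c) / 2)| ≤ Real.cos δ) :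
    ∑ c, (lob (a c) + lob (ξ c - a c) + lob (a' c) + lob (ξ' c - a' c)) ≤
      2 * vol3 ((a 0 + a' 0) / 2) ((a 1 + a' 1) / 2) ((a 2 + a' 2) / 2) -
        1 / 2 * (1 - Real.cos δ) * ∑ c, Real.sin (a c + a' c) := sorry

/-! ## GLOB: weak angle structures -/

theorem glob {w : ℕ → Mv} {N : ℕ} {α : ℕ → Fin 3 → ℝ} {r ρ : ℕ → ℝ} (hw : Valid w N) (hW : Wide w N)
    (hα : AngleStructure w N α) (hr : Radii w N α r ρ) {η : ℝ} (hη : 0 < η) :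
    ∃ g : ℝ, 0 < g ∧ ∀ β : ℕ → Fin 3 → ℝ, AngW w N β → ∀ v < N, (∃ c, 0 < α v c ∧ α v c < Real.pi / 2) →
      2 * ∑ t ∈ range N, vol3 (β t 0) (β t 1) (β t 2) - η * ∑ c, Real.sin (2 * β v c) ≤
        2 * ∑ t ∈ range N, vol3 (α t 0) (α t 1) (α t 2) - g := sorry

/-- one of the two ends of every site is not degenerate -/
theorem nondeg {w : ℕ → Mv} {N : ℕ} {α : ℕ → Fin 3 → ℝ} {r ρ : ℕ → ℝ} (hw : Valid w N) (hS : Simple w N)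
    (hN : 3 ≤ N) (hα : AngleStructure w N α) (x : Bl (toLt id w N)) :
    ∃ s c, 0 < α (vx w N x s) c ∧ α (vx w N x s) c < Real.pi / 2 := sorry

/-! ## MP: the maximum principle -/

theorem max_principle {ι : Type} [Fintype ι] {Γ : Type} (S : Finset Γ) (O : Finset ι) (f g : ι → ℂ → Γ → ℂ)
    (d : ι → Γ → ℂ) (hf : ∀ i a, Differentiable ℂ fun s => f i s a) (hg : ∀ i a, Differentiable ℂ fun s => g i s a)
    (h0 : ∀ i ∈ O, ∀ a ∈ S, HasDerivAt (fun s => f i s a - g i s a) (d i a) 0)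
    (h1 : ∀ i ∈ O, ∀ a ∈ S, f i 0 a = g i 0 a) (B : ℝ)
    (hB : ∀ s : ℂ, ‖s‖ = 1 → ∀ T ⊆ O, ‖∑ a ∈ S, ∏ i, (if i ∈ T then g i s a else f i s a)‖ ≤ B) :
    ‖∑ a ∈ S, ∏ i, (if i ∈ O then d i a else f i 0 a)‖ ≤ 2 ^ O.card * B := sorry

/-! ## FAR: the far bound -/

/-- **The far bound for all words.** -/
theorem far {w : ℕ → Mv} {N : ℕ} {α : ℕ → Fin 3 → ℝ} {r ρ : ℕ → ℝ} (hw : Valid w N) (hS : Simple w N)
    (hN : 3 ≤ N) (hα : AngleStructure w N α) (hr : Radii w N α r ρ) {δ : ℝ} (hδ : 0 < δ) :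
    ∃ g : ℝ, 0 < g ∧ ∀ᶠ n : ℕ in atTop, ∀ (u : Bl (toLt id w N) → ℕ) (O : Finset (Bl (toLt id w N))),
      (∀ x, u x < n) → (∀ x ∈ O, 2 * u x + 1 ≠ n) → (∃ x, δ ≤ |ANG.xn n (u x)|) →
      |∑ A ∈ AngSet n (toLt id w N), ∏ x, (if x ∈ O then deriv (HH n (A x)) (Nd.Xu n (u x))
        else HH n (A x) (Nd.Xu n (u x)))| ≤
      Real.exp (n * ((∑ t ∈ range N, vol3 (α t 0) (α t 1) (α t 2)) / Real.pi - g)) := sorry

end ANG.FB
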